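import Pool.Agent.W5h40.WlpP.Gen3
import Pool.Agent.W5h40.WlpO.Main

set_option autoImplicit false

open MvPolynomial

namespace Pool.Agent.W5h40.WlpP

open Pool.Agent.Helper720.Pow Pool.Agent.W5h40.Wlp
open Pool.Agent.W5h40.WlpE (rank_of_inj_mid maxRank_of_rank not_maxRankE rankE GoodE)

variable {K : Type*} [Field K] {n : ℕ}

/-- the cases with the weak Lefschetz property -/
def GoodA (n d k : ℕ) : Prop :=
  d = 1 ∨ k = 1 ∨ (k = 2 ∧ d ≤ 3) ∨ (n = 4 ∧ ((d = 2 ∧ k = 3) ∨ (d = 4 ∧ k = 2))) ∨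
    (Odd n ∧ d = 2 ∧ k = 3) ∨ (n = 5 ∧ d = 2 ∧ k ≤ 7) ∨ (n = 7 ∧ d = 2 ∧ k = 4)

/-- the cases which are not decided -/
def LeftA (n d k : ℕ) : Prop :=
  (Odd n ∧ d = 4 ∧ k = 2) ∨ (n = 5 ∧ d = 4 ∧ k = 3) ∨ (d = 6 ∧ k = 2 ∧ (n = 5 ∨ n = 7))

lemma goodE_iff {d k : ℕ} (hn : 4 ≤ n) (he : Even (n * (d - 1))) : GoodE n d k ↔ GoodA n d k := by
  unfold GoodE GoodA
  have h2 : d = 2 → ¬ Odd n := by
    rintro rfl ho
    rw [Nat.mul_one] at he
    exact (Nat.not_even_iff_odd.2 ho) he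
  constructor
  · rintro (h | h | h | h)
    · exact Or.inl h
    · exact Or.inr (Or.inl h)
    · exact Or.inr (Or.inr (Or.inl h))
    · exact Or.inr (Or.inr (Or.inr (Or.inl h)))
  · rintro (h | h | h | h | ⟨h, h', _⟩ | ⟨h, h', _⟩ | ⟨h, h', _⟩)
    · exact Or.inl h
    · exact Or.inr (Or.inl h)
    · exact Or.inr (Or.inr (Or.inl h))
    · exact Or.inr (Or.inr (Or.inr h))
    · exact absurd h (h2 h')
    · exact absurd (by rw [h]; decide) (h2 h')
    · exact absurd (by rw [h]; decide) (h2 h')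

theorem not_maxRankA [CharZero K] {d k i : ℕ} (hn : 4 ≤ n) (hd : 1 ≤ d) (hk : 1 ≤ k)
    (hl : ¬ LeftA n d k) (h : ¬ GoodA n d k) (hi : i + 1 = (k - 1) * d + n * (d - 1) / 2)
    {L : MvPolynomial (Fin n) K} (hL : L.IsHomogeneous 1) :
    ¬ MaxRank (powIdeal K n d k) L i := by
  by_cases he : Even (n * (d - 1))
  · exact not_maxRankE hn hd hk (even_iff_two_dvd.1 he) (fun h' => h ((goodE_iff hn he).1 h')) hi hL
  · have ho : Odd (n * (d - 1)) := Nat.not_even_iff_odd.1 he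
    obtain ⟨hno, hdo⟩ := Nat.odd_mul.1 ho
    have hde : Even d := by
      obtain ⟨r, hr⟩ := hdo
      exact ⟨r + 1, by omega⟩
    unfold GoodA at h
    unfold LeftA at hl
    push Not at h hl
    obtain ⟨g1, g2, g3, g4, g5, g6, g7⟩ := h
    obtain ⟨l1, l2, l3⟩ := hl
    have hn5 : n ≠ 4 := by
      rintro rfl
      revert hno
      decide
    have hn6 : n ≠ 6 := by
      rintro rfl
      revert hno
      decide
    have hd2 : 2 ≤ d := by omega
    have hk2 : 2 ≤ k := by omega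
    refine WlpO.not_maxRankO (by omega) hno hde hd2 hk2 ?_ hi hL
    rintro (⟨h1, h2⟩ | ⟨h1, h2⟩ | ⟨h1, h2, h3⟩ | ⟨h1, h2 | h2⟩ | ⟨h1, h2, h3⟩)
    · rcases (by omega : k = 2 ∨ k = 3) with h3 | h3
      · have := g3 h3
        omega
      · exact g5 hno h1 h3
    · exact l1 hno h1 h2
    · have := l3 h1 h2
      omega
    · exact l2 h1 h2.1 h2.2
    · have := g6 h1 h2.1
      omega
    · exact g7 h1 h2 h3

theorem rankA [CharZero K] {d k : ℕ} (hn : 4 ≤ n) (hd : 1 ≤ d) (hk : 1 ≤ k) (h : GoodA n d k)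
    (i : ℕ) : InjAt K n d k i 1 ∨ SurjAt K n d k i 1 := by
  by_cases he : Even (n * (d - 1))
  · exact rankE hn hd hk ((goodE_iff hn he).2 h) i
  · have ho : Odd (n * (d - 1)) := Nat.not_even_iff_odd.1 he
    obtain ⟨hno, hdo⟩ := Nat.odd_mul.1 ho
    have hd1 : d ≠ 1 := by
      rintro rfl
      revert hdo
      decide
    have hd3 : d ≠ 3 := by
      rintro rfl
      revert hdo
      decide
    have hn4 : n ≠ 4 := by
      rintro rfl
      revert hno
      decide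
    rcases h with h | h | ⟨h1, h2⟩ | h | ⟨h1, h2, h3⟩ | ⟨h1, h2, h3⟩ | ⟨h1, h2, h3⟩
    · exact absurd h hd1
    · exact rankE hn hd hk (Or.inr (Or.inl h)) i
    · exact rankE hn hd hk (Or.inr (Or.inr (Or.inl ⟨h1, h2⟩))) i
    · exact absurd h.1 hn4
    · obtain ⟨r, hr⟩ := h1
      subst h2 h3
      exact rank_of_inj_mid (by omega) (by norm_num) (by norm_num) (i := r + 3) (by omega)
        (inj_two3 r hr) i
    · subst h1 h2
      exact rank_of_inj_mid (by norm_num) (by norm_num) hk (i := 2 * k - 1) (by omega)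
        (inj_norm2 (n := 4) hk (by omega)) i
    · subst h1 h2 h3
      exact rank_of_inj_mid (by norm_num) (by norm_num) (by norm_num) (i := 8) (by norm_num)
        G.inj7 i

end Pool.Agent.W5h40.WlpP
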