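import Pool.Agent.W5h40.WlpP.Norm

set_option autoImplicit false

open MvPolynomial

namespace Pool.Agent.W5h40.WlpP.G

open Pool.Agent.Helper720.Pow Pool.Agent.W5h40.Wlp
open Pool.Agent.W5h40.WlpE (VV SS sum_upd exists_perm exists_cons coe_sub_single)

variable {K : Type*} [Field K]

/-- the coefficients of an element of degree `i` killed by the sum of the variables, `d = 2` -/
def Ker {n : ℕ} (k i : ℕ) (v : (Fin n → ℕ) → K) : Prop :=
  ∀ w : Fin n → ℕ, ∑ c, w c = i + 1 → ∑ c, w c / 2 < k →
    ∑ c, (if w c = 0 then 0 else v (Function.update w c (w c - 1))) = 0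

def Triv {n : ℕ} (k i : ℕ) (v : (Fin n → ℕ) → K) : Prop :=
  ∀ w : Fin n → ℕ, ∑ c, w c = i → ∑ c, w c / 2 < k → v w = 0

lemma ker_cons {n k i : ℕ} {v : (Fin (n + 2) → ℕ) → K} (hv : Ker k i v) (a b : ℕ) (r : Fin n → ℕ)
    (h1 : a + b + ∑ c, r c = i + 1) (h2 : a / 2 + b / 2 + ∑ c, r c / 2 < k) :
    (if a = 0 then 0 else VV v (a - 1) b r) + (if b = 0 then 0 else VV v a (b - 1) r) +
      SS v a b r = 0 := by
  have h := hv (Fin.cons a (Fin.cons b r : Fin (n + 1) → ℕ)) (by
    rw [Fin.sum_univ_succ, Fin.sum_univ_succ]
    simp only [Fin.cons_zero, Fin.cons_succ]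
    omega) (by
    rw [Fin.sum_univ_succ, Fin.sum_univ_succ]
    simp only [Fin.cons_zero, Fin.cons_succ]
    omega)
  rw [Fin.sum_univ_succ, Fin.sum_univ_succ] at h
  simp only [Fin.cons_zero, Fin.cons_succ, Fin.update_cons_zero, ← Fin.cons_update] at h
  refine Eq.trans ?_ h
  rw [add_assoc]
  rfl

/-- the contraction -/
def con {n : ℕ} (v : (Fin (n + 2) → ℕ) → K) (r : Fin n → ℕ) : K :=
  VV v 1 0 r - VV v 0 1 r

lemma con_ker {n k i : ℕ} {v : (Fin (n + 2) → ℕ) → K} (hv : Ker k (i + 1) v) : Ker k i (con v) := by
  intro r h1 h2
  have hs : ∑ c, (if r c = 0 then 0 else con v (Function.update r c (r c - 1))) =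
      SS v 1 0 r - SS v 0 1 r := by
    unfold SS con
    rw [← Finset.sum_sub_distrib]
    refine Finset.sum_congr rfl fun c _ => ?_
    split_ifs <;> ring
  rw [hs]
  have e1 := ker_cons hv 1 0 r (by omega) (by omega)
  have e2 := ker_cons hv 0 1 r (by omega) (by omega)
  norm_num at e1 e2
  linear_combination e1 - e2

/-- permutation of the variables -/
lemma ker_perm {n k i : ℕ} {v : (Fin n → ℕ) → K} (hv : Ker k i v) (σ : Equiv.Perm (Fin n)) :
    Ker k i (fun w => v (w ∘ σ)) := by
  intro w h1 h2
  have h := hv (w ∘ σ) (by
    rw [← h1]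
    exact Equiv.sum_comp σ w) (by
    have := Equiv.sum_comp σ (fun c => w c / 2)
    simp only [Function.comp] at this ⊢
    rw [this]
    exact h2)
  rw [← Equiv.sum_comp σ]
  refine Eq.trans (Finset.sum_congr rfl fun c _ => ?_) h
  have h3 : Function.update w (σ c) (w (σ c) - 1) ∘ σ =
      Function.update (w ∘ σ) c ((w ∘ σ) c - 1) := by
    rw [Function.update_comp_equiv, Equiv.symm_apply_apply]
    rfl
  show (if w (σ c) = 0 then 0 else v (Function.update w (σ c) (w (σ c) - 1) ∘ σ)) = _
  rw [h3]
  rfl

/-- moving a one to a zero -/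
lemma inv {n κ i : ℕ} (IH : ∀ v : (Fin n → ℕ) → K, Ker κ i v → Triv κ i v)
    {v : (Fin (n + 2) → ℕ) → K} (hv : Ker κ (i + 1) v) {w : Fin (n + 2) → ℕ}
    (hs : ∑ c, w c = i + 1) (hfl : ∑ c, w c / 2 < κ) {j k : Fin (n + 2)} (hj : w j = 1)
    (hk : w k = 0) : v w = v (Function.update (Function.update w j 0) k 1) := by
  have hjk : j ≠ k := by
    rintro rfl
    omega
  obtain ⟨σ, hσ0, hσ1⟩ := exists_perm hjk
  have hv' := ker_perm hv σ.symm
  have h1 := IH _ (con_ker hv')
  obtain ⟨a, b, r, hr⟩ := exists_cons (w ∘ σ)
  have ha : a = 1 := by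
    have := congrFun hr 0
    simp only [Function.comp, hσ0, Fin.cons_zero, hj] at this
    exact this.symm
  have hb : b = 0 := by
    have := congrFun hr 1
    rw [Function.comp_apply, hσ1, hk] at this
    exact this.symm
  subst ha hb
  have hsr : ∑ c, r c = i := by
    have h2 : ∑ c, (w ∘ σ) c = i + 1 := by
      rw [← hs]
      exact Equiv.sum_comp σ w
    rw [hr, Fin.sum_univ_succ, Fin.sum_univ_succ] at h2
    simp only [Fin.cons_zero, Fin.cons_succ] at h2
    omega
  have hflr : ∑ c, r c / 2 < κ := by
    have h2 : ∑ c, (w ∘ σ) c / 2 = ∑ c, w c / 2 := Equiv.sum_comp σ (fun c => w c / 2)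
    rw [hr, Fin.sum_univ_succ, Fin.sum_univ_succ] at h2
    simp only [Fin.cons_zero, Fin.cons_succ] at h2
    omega
  have h2 := h1 r hsr hflr
  unfold con VV at h2
  simp only at h2
  rw [← hr] at h2
  have e1 : (w ∘ σ) ∘ σ.symm = w := by
    funext c
    simp
  have e2 : (Fin.cons 0 (Fin.cons 1 r : Fin (n + 1) → ℕ) : Fin (n + 2) → ℕ) ∘ σ.symm =
      Function.update (Function.update w j 0) k 1 := by
    have e3 : (Fin.cons 0 (Fin.cons 1 r : Fin (n + 1) → ℕ) : Fin (n + 2) → ℕ) =
        Function.update (Function.update (w ∘ σ) (0 : Fin (n + 2)) 0) (1 : Fin (n + 2)) 1 := by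
      rw [hr]
      funext c
      refine Fin.cases ?_ (fun c => Fin.cases ?_ (fun c => ?_) c) c
      · rw [Function.update_of_ne (by intro h; exact absurd (congrArg Fin.val h) (by simp)),
          Function.update_self]
        rfl
      · have h5 : (Fin.succ 0 : Fin (n + 2)) = 1 := rfl
        rw [h5, Function.update_self]
        rfl
      · rw [Function.update_of_ne (by intro h; exact absurd (congrArg Fin.val h) (by simp)),
          Function.update_of_ne (Fin.succ_ne_zero _)]
        rfl
    rw [e3]
    funext c
    by_cases hc1 : c = k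
    · subst hc1
      rw [Function.update_self, Function.comp_apply, ← hσ1, Equiv.symm_apply_apply,
        Function.update_self]
    · by_cases hc2 : c = j
      · subst hc2
        rw [Function.update_of_ne hc1, Function.update_self, Function.comp_apply, ← hσ0,
          Equiv.symm_apply_apply, Function.update_of_ne (by
            intro h
            exact absurd (congrArg Fin.val h) (by simp)), Function.update_self]
      · rw [Function.update_of_ne hc1, Function.update_of_ne hc2, Function.comp_apply,
          Function.update_of_ne, Function.update_of_ne, Function.comp_apply,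
          Equiv.apply_symm_apply]
        · intro h
          apply hc2
          rw [← hσ0, ← h, Equiv.apply_symm_apply]
        · intro h
          apply hc1
          rw [← hσ1, ← h, Equiv.apply_symm_apply]
  rw [e1, e2] at h2
  exact sub_eq_zero.1 h2

/-- the induction step: a zero position -/
lemma step [CharZero K] {n k i : ℕ} {v : (Fin n → ℕ) → K} (hv : Ker k i v)
    (hinv : ∀ (w : Fin n → ℕ), ∑ c, w c = i → ∑ c, w c / 2 < k → ∀ j t, w j = 1 → w t = 0 →
      v w = v (Function.update (Function.update w j 0) t 1))
    (h0 : ∀ (w : Fin n → ℕ), ∑ c, w c = i → ∑ c, w c / 2 < k → (∀ c, w c ≠ 0) → v w = 0) :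
    Triv k i v := by
  have main : ∀ (μ : ℕ) (w : Fin n → ℕ), ∑ c, (w c - 1) = μ → ∑ c, w c = i → ∑ c, w c / 2 < k →
      v w = 0 := by
    intro μ
    induction μ using Nat.strong_induction_on with
    | _ μ ih =>
      intro w hμ hs hfl
      by_cases ht : ∀ c, w c ≠ 0
      · exact h0 w hs hfl ht
      push Not at ht
      obtain ⟨t, ht⟩ := ht
      set W : Fin n → ℕ := Function.update w t 1 with hW
      have sW := sum_upd w t 1
      rw [← hW] at sW
      have hWc : ∀ c, c ≠ t → W c = w c := fun c hc => by rw [hW, Function.update_of_ne hc]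
      have hWt : W t = 1 := by rw [hW, Function.update_self]
      have hWfl : ∑ c, W c / 2 = ∑ c, w c / 2 := by
        refine Finset.sum_congr rfl fun c _ => ?_
        by_cases hc : c = t
        · rw [hc, hWt, ht]
        · rw [hWc c hc]
      have h1 := hv W (by omega) (by omega)
      have h2 : ∀ c, (if W c = 0 then 0 else v (Function.update W c (W c - 1))) =
          (if w c = 1 ∨ c = t then v w else 0) := by
        intro c
        by_cases hc : c = t
        · subst hc
          rw [if_neg (by omega), if_pos (Or.inr rfl), hWt, hW, Function.update_idem]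
          have : Function.update w c (1 - 1) = w := by
            rw [show 1 - 1 = w c by omega, Function.update_eq_self]
          rw [this]
        · rw [hWc c hc]
          by_cases hc0 : w c = 0
          · rw [if_pos hc0, if_neg (by
              rintro (h | h)
              · omega
              · exact hc h)]
          rw [if_neg hc0]
          by_cases hc1 : w c = 1
          · rw [if_pos (Or.inl hc1), hc1, hinv w hs hfl c t hc1 ht, hW]
            congr 1
            rw [Function.update_comm hc]
          · rw [if_neg (by
              rintro (h | h)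
              · exact hc1 h
              · exact hc h)]
            -- a smaller exponent
            have s1 := sum_upd W c (w c - 1)
            rw [hWc c hc] at s1
            have s2 : ∑ x, (Function.update W c (w c - 1) x - 1) + 1 = ∑ x, (w x - 1) := by
              rw [← Finset.add_sum_erase _ _ (Finset.mem_univ c),
                ← Finset.add_sum_erase _ (fun x => w x - 1) (Finset.mem_univ c),
                Function.update_self]
              have : ∑ x ∈ Finset.univ.erase c, (Function.update W c (w c - 1) x - 1) =
                  ∑ x ∈ Finset.univ.erase c, (w x - 1) := by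
                refine Finset.sum_congr rfl fun x hx => ?_
                rw [Function.update_of_ne (Finset.ne_of_mem_erase hx)]
                by_cases hxt : x = t
                · rw [hxt, hWt, ht]
                · rw [hWc x hxt]
              omega
            refine ih (∑ x, (Function.update W c (w c - 1) x - 1)) (by omega) _ rfl (by omega) ?_
            refine lt_of_le_of_lt (Finset.sum_le_sum fun x _ => ?_) hfl
            by_cases hxc : x = c
            · subst hxc
              rw [Function.update_self]
              omega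
            · rw [Function.update_of_ne hxc]
              by_cases hxt : x = t
              · rw [hxt, hWt, ht]
              · rw [hWc x hxt]
      rw [Finset.sum_congr rfl fun c _ => h2 c, ← Finset.sum_filter, Finset.sum_const,
        nsmul_eq_mul] at h1
      refine (mul_eq_zero.1 h1).resolve_left (Nat.cast_ne_zero.2 ?_)
      rw [Finset.card_ne_zero]
      exact ⟨t, Finset.mem_filter.2 ⟨Finset.mem_univ t, Or.inr rfl⟩⟩
  intro w hs hfl
  exact main _ w rfl hs hfl

end Pool.Agent.W5h40.WlpP.G
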