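import Pool.Agent.W5h40.WlpP.Gen

set_option autoImplicit false

open MvPolynomial

namespace Pool.Agent.W5h40.WlpP.G

open Pool.Agent.Helper720.Pow Pool.Agent.W5h40.Wlp
open Pool.Agent.W5h40.WlpE (VV SS sum_upd exists_perm exists_cons coe_sub_single)

variable {K : Type*} [Field K]

/-- only the exponents greater than one matter -/
lemma vP {n k i : ℕ} {v : (Fin n → ℕ) → K}
    (hinv : ∀ (w : Fin n → ℕ), ∑ c, w c = i → ∑ c, w c / 2 < k → ∀ j t, w j = 1 → w t = 0 →
      v w = v (Function.update (Function.update w j 0) t 1)) :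
    ∀ w w' : Fin n → ℕ, ∑ c, w c = i → ∑ c, w' c = i → ∑ c, w c / 2 < k →
      (∀ c, w c = w' c ∨ (w c ≤ 1 ∧ w' c ≤ 1)) → v w = v w' := by
  intro w w' h1 h2 h3 h4
  obtain ⟨N, hN⟩ : ∃ N, N = (Finset.univ.filter fun c => w c = 1 ∧ w' c = 0).card := ⟨_, rfl⟩
  induction N using Nat.strong_induction_on generalizing w with
  | _ N ih =>
    by_cases hc : ∃ c, w c = 1 ∧ w' c = 0
    · obtain ⟨c, hc1, hc2⟩ := hc
      have ht : ∃ t, w t = 0 ∧ w' t = 1 := by
        by_contra hcon
        push Not at hcon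
        have h5 : ∑ x, w' x < ∑ x, w x := by
          refine Finset.sum_lt_sum (fun x _ => ?_) ⟨c, Finset.mem_univ c, by omega⟩
          rcases h4 x with h | ⟨h, h'⟩
          · exact h.ge
          · have := hcon x
            omega
        omega
      obtain ⟨t, ht1, ht2⟩ := ht
      have hct : c ≠ t := by
        rintro rfl
        omega
      rw [hinv w h1 h3 c t hc1 ht1]
      set w1 : Fin n → ℕ := Function.update (Function.update w c 0) t 1 with hw1
      have e1 : w1 t = 1 := by rw [hw1, Function.update_self]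
      have e2 : w1 c = 0 := by rw [hw1, Function.update_of_ne hct, Function.update_self]
      have e3 : ∀ x, x ≠ c → x ≠ t → w1 x = w x := fun x hx hx' => by
        rw [hw1, Function.update_of_ne hx', Function.update_of_ne hx]
      have s1 := sum_upd w c 0
      have s2 := sum_upd (Function.update w c 0) t 1
      rw [← hw1, Function.update_of_ne hct.symm] at s2
      have s3 : ∀ x, w1 x / 2 = w x / 2 := by
        intro x
        by_cases hx : x = c
        · rw [hx, e2, hc1]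
        · by_cases hx' : x = t
          · rw [hx', e1, ht1]
          · rw [e3 x hx hx']
      refine ih _ ?_ w1 (by omega) ?_ ?_ rfl
      · rw [hN]
        apply Finset.card_lt_card
        rw [Finset.ssubset_iff_of_subset]
        · refine ⟨c, Finset.mem_filter.2 ⟨Finset.mem_univ c, hc1, hc2⟩, ?_⟩
          intro h
          have := (Finset.mem_filter.1 h).2.1
          omega
        · intro x hx
          obtain ⟨_, hx1, hx2⟩ := Finset.mem_filter.1 hx
          have hxc : x ≠ c := by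
            rintro rfl
            omega
          have hxt : x ≠ t := by
            rintro rfl
            omega
          rw [e3 x hxc hxt] at hx1
          exact Finset.mem_filter.2 ⟨Finset.mem_univ x, hx1, hx2⟩
      · rw [Finset.sum_congr rfl fun x _ => s3 x]
        exact h3
      · intro x
        by_cases hx : x = c
        · right
          rw [hx, e2, hc2]
          omega
        · by_cases hx' : x = t
          · left
            rw [hx', e1, ht2]
          · rw [e3 x hx hx']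
            exact h4 x
    · push Not at hc
      have h5 : w = w' := by
        by_contra hne
        obtain ⟨c, hcc⟩ := Function.ne_iff.1 hne
        have h6 : ∑ x, w x < ∑ x, w' x := by
          refine Finset.sum_lt_sum (fun x _ => ?_) ⟨c, Finset.mem_univ c, ?_⟩
          · rcases h4 x with h | ⟨h, h'⟩
            · exact h.le
            · have := hc x
              omega
          · rcases h4 c with h | ⟨h, h'⟩
            · exact absurd h hcc
            · have := hc c
              omega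
        omega
      rw [h5]

/-- the relations, seven variables -/
lemma rel7 {v : (Fin 7 → ℕ) → K} (hv : Ker 4 8 v) (a b c d e f g : ℕ)
    (h1 : a + b + c + d + e + f + g = 9)
    (h2 : a / 2 + b / 2 + c / 2 + d / 2 + e / 2 + f / 2 + g / 2 < 4) :
    (if a = 0 then 0 else v ![a - 1, b, c, d, e, f, g]) +
      (if b = 0 then 0 else v ![a, b - 1, c, d, e, f, g]) +
      (if c = 0 then 0 else v ![a, b, c - 1, d, e, f, g]) +
      (if d = 0 then 0 else v ![a, b, c, d - 1, e, f, g]) +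
      (if e = 0 then 0 else v ![a, b, c, d, e - 1, f, g]) +
      (if f = 0 then 0 else v ![a, b, c, d, e, f - 1, g]) +
      (if g = 0 then 0 else v ![a, b, c, d, e, f, g - 1]) = 0 := by
  have h := hv ![a, b, c, d, e, f, g] (by
    rw [Fin.sum_univ_seven]
    exact h1) (by
    rw [Fin.sum_univ_seven]
    exact h2)
  have e0 : Function.update ![a, b, c, d, e, f, g] 0 (a - 1) = ![a - 1, b, c, d, e, f, g] := by
    funext x
    fin_cases x <;> rfl
  have e1 : Function.update ![a, b, c, d, e, f, g] 1 (b - 1) = ![a, b - 1, c, d, e, f, g] := by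
    funext x
    fin_cases x <;> rfl
  have e2 : Function.update ![a, b, c, d, e, f, g] 2 (c - 1) = ![a, b, c - 1, d, e, f, g] := by
    funext x
    fin_cases x <;> rfl
  have e3 : Function.update ![a, b, c, d, e, f, g] 3 (d - 1) = ![a, b, c, d - 1, e, f, g] := by
    funext x
    fin_cases x <;> rfl
  have e4 : Function.update ![a, b, c, d, e, f, g] 4 (e - 1) = ![a, b, c, d, e - 1, f, g] := by
    funext x
    fin_cases x <;> rfl
  have e5 : Function.update ![a, b, c, d, e, f, g] 5 (f - 1) = ![a, b, c, d, e, f - 1, g] := by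
    funext x
    fin_cases x <;> rfl
  have e6 : Function.update ![a, b, c, d, e, f, g] 6 (g - 1) = ![a, b, c, d, e, f, g - 1] := by
    funext x
    fin_cases x <;> rfl
  rw [← e0, ← e1, ← e2, ← e3, ← e4, ← e5, ← e6]
  rw [Fin.sum_univ_seven] at h
  exact h

lemma base7 [CharZero K] {v : (Fin 7 → ℕ) → K} (hv : Ker 4 8 v)
    (hinv : ∀ (w : Fin 7 → ℕ), ∑ c, w c = 8 → ∑ c, w c / 2 < 4 → ∀ j t, w j = 1 → w t = 0 →
      v w = v (Function.update (Function.update w j 0) t 1)) :
    v ![2, 1, 1, 1, 1, 1, 1] + v ![1, 2, 1, 1, 1, 1, 1] + v ![1, 1, 2, 1, 1, 1, 1] = 0 := by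
  have J := vP hinv
  have r0 := rel7 hv 1 1 3 1 1 1 1 (by norm_num) (by norm_num)
  simp only [Nat.reduceSub, if_false, if_true, OfNat.ofNat_ne_zero, one_ne_zero] at r0
  rw [J ![0, 1, 3, 1, 1, 1, 1] ![1, 1, 3, 1, 1, 1, 0] (by decide) (by decide) (by decide) (by decide),
    J ![1, 0, 3, 1, 1, 1, 1] ![1, 1, 3, 1, 1, 1, 0] (by decide) (by decide) (by decide) (by decide),
    J ![1, 1, 3, 0, 1, 1, 1] ![1, 1, 3, 1, 1, 1, 0] (by decide) (by decide) (by decide) (by decide),
    J ![1, 1, 3, 1, 0, 1, 1] ![1, 1, 3, 1, 1, 1, 0] (by decide) (by decide) (by decide) (by decide),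
    J ![1, 1, 3, 1, 1, 0, 1] ![1, 1, 3, 1, 1, 1, 0] (by decide) (by decide) (by decide) (by decide)] at r0
  have r1 := rel7 hv 1 2 2 1 1 1 1 (by norm_num) (by norm_num)
  simp only [Nat.reduceSub, if_false, if_true, OfNat.ofNat_ne_zero, one_ne_zero] at r1
  rw [J ![0, 2, 2, 1, 1, 1, 1] ![1, 2, 2, 1, 1, 1, 0] (by decide) (by decide) (by decide) (by decide),
    J ![1, 2, 2, 0, 1, 1, 1] ![1, 2, 2, 1, 1, 1, 0] (by decide) (by decide) (by decide) (by decide),
    J ![1, 2, 2, 1, 0, 1, 1] ![1, 2, 2, 1, 1, 1, 0] (by decide) (by decide) (by decide) (by decide),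
    J ![1, 2, 2, 1, 1, 0, 1] ![1, 2, 2, 1, 1, 1, 0] (by decide) (by decide) (by decide) (by decide)] at r1
  have r2 := rel7 hv 1 2 3 1 1 1 0 (by norm_num) (by norm_num)
  simp only [Nat.reduceSub, if_false, if_true, OfNat.ofNat_ne_zero, one_ne_zero] at r2
  rw [J ![0, 2, 3, 1, 1, 1, 0] ![1, 2, 3, 1, 1, 0, 0] (by decide) (by decide) (by decide) (by decide),
    J ![1, 2, 3, 0, 1, 1, 0] ![1, 2, 3, 1, 1, 0, 0] (by decide) (by decide) (by decide) (by decide),
    J ![1, 2, 3, 1, 0, 1, 0] ![1, 2, 3, 1, 1, 0, 0] (by decide) (by decide) (by decide) (by decide)] at r2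
  have r3 := rel7 hv 1 3 1 1 1 1 1 (by norm_num) (by norm_num)
  simp only [Nat.reduceSub, if_false, if_true, OfNat.ofNat_ne_zero, one_ne_zero] at r3
  rw [J ![0, 3, 1, 1, 1, 1, 1] ![1, 3, 1, 1, 1, 1, 0] (by decide) (by decide) (by decide) (by decide),
    J ![1, 3, 0, 1, 1, 1, 1] ![1, 3, 1, 1, 1, 1, 0] (by decide) (by decide) (by decide) (by decide),
    J ![1, 3, 1, 0, 1, 1, 1] ![1, 3, 1, 1, 1, 1, 0] (by decide) (by decide) (by decide) (by decide),
    J ![1, 3, 1, 1, 0, 1, 1] ![1, 3, 1, 1, 1, 1, 0] (by decide) (by decide) (by decide) (by decide),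
    J ![1, 3, 1, 1, 1, 0, 1] ![1, 3, 1, 1, 1, 1, 0] (by decide) (by decide) (by decide) (by decide)] at r3
  have r4 := rel7 hv 1 3 2 1 1 1 0 (by norm_num) (by norm_num)
  simp only [Nat.reduceSub, if_false, if_true, OfNat.ofNat_ne_zero, one_ne_zero] at r4
  rw [J ![0, 3, 2, 1, 1, 1, 0] ![1, 3, 2, 1, 1, 0, 0] (by decide) (by decide) (by decide) (by decide),
    J ![1, 3, 2, 0, 1, 1, 0] ![1, 3, 2, 1, 1, 0, 0] (by decide) (by decide) (by decide) (by decide),
    J ![1, 3, 2, 1, 0, 1, 0] ![1, 3, 2, 1, 1, 0, 0] (by decide) (by decide) (by decide) (by decide)] at r4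
  have r5 := rel7 hv 1 3 3 1 1 0 0 (by norm_num) (by norm_num)
  simp only [Nat.reduceSub, if_false, if_true, OfNat.ofNat_ne_zero, one_ne_zero] at r5
  rw [J ![0, 3, 3, 1, 1, 0, 0] ![1, 3, 3, 1, 0, 0, 0] (by decide) (by decide) (by decide) (by decide),
    J ![1, 3, 3, 0, 1, 0, 0] ![1, 3, 3, 1, 0, 0, 0] (by decide) (by decide) (by decide) (by decide)] at r5
  have r6 := rel7 hv 2 1 2 1 1 1 1 (by norm_num) (by norm_num)
  simp only [Nat.reduceSub, if_false, if_true, OfNat.ofNat_ne_zero, one_ne_zero] at r6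
  rw [J ![2, 0, 2, 1, 1, 1, 1] ![2, 1, 2, 1, 1, 1, 0] (by decide) (by decide) (by decide) (by decide),
    J ![2, 1, 2, 0, 1, 1, 1] ![2, 1, 2, 1, 1, 1, 0] (by decide) (by decide) (by decide) (by decide),
    J ![2, 1, 2, 1, 0, 1, 1] ![2, 1, 2, 1, 1, 1, 0] (by decide) (by decide) (by decide) (by decide),
    J ![2, 1, 2, 1, 1, 0, 1] ![2, 1, 2, 1, 1, 1, 0] (by decide) (by decide) (by decide) (by decide)] at r6
  have r7 := rel7 hv 2 1 3 1 1 1 0 (by norm_num) (by norm_num)
  simp only [Nat.reduceSub, if_false, if_true, OfNat.ofNat_ne_zero, one_ne_zero] at r7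
  rw [J ![2, 0, 3, 1, 1, 1, 0] ![2, 1, 3, 1, 1, 0, 0] (by decide) (by decide) (by decide) (by decide),
    J ![2, 1, 3, 0, 1, 1, 0] ![2, 1, 3, 1, 1, 0, 0] (by decide) (by decide) (by decide) (by decide),
    J ![2, 1, 3, 1, 0, 1, 0] ![2, 1, 3, 1, 1, 0, 0] (by decide) (by decide) (by decide) (by decide)] at r7
  have r8 := rel7 hv 2 2 1 1 1 1 1 (by norm_num) (by norm_num)
  simp only [Nat.reduceSub, if_false, if_true, OfNat.ofNat_ne_zero, one_ne_zero] at r8
  rw [J ![2, 2, 0, 1, 1, 1, 1] ![2, 2, 1, 1, 1, 1, 0] (by decide) (by decide) (by decide) (by decide),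
    J ![2, 2, 1, 0, 1, 1, 1] ![2, 2, 1, 1, 1, 1, 0] (by decide) (by decide) (by decide) (by decide),
    J ![2, 2, 1, 1, 0, 1, 1] ![2, 2, 1, 1, 1, 1, 0] (by decide) (by decide) (by decide) (by decide),
    J ![2, 2, 1, 1, 1, 0, 1] ![2, 2, 1, 1, 1, 1, 0] (by decide) (by decide) (by decide) (by decide)] at r8
  have r9 := rel7 hv 2 2 2 1 1 1 0 (by norm_num) (by norm_num)
  simp only [Nat.reduceSub, if_false, if_true, OfNat.ofNat_ne_zero, one_ne_zero] at r9
  rw [J ![2, 2, 2, 0, 1, 1, 0] ![2, 2, 2, 1, 1, 0, 0] (by decide) (by decide) (by decide) (by decide),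
    J ![2, 2, 2, 1, 0, 1, 0] ![2, 2, 2, 1, 1, 0, 0] (by decide) (by decide) (by decide) (by decide)] at r9
  have r10 := rel7 hv 2 2 3 1 1 0 0 (by norm_num) (by norm_num)
  simp only [Nat.reduceSub, if_false, if_true, OfNat.ofNat_ne_zero, one_ne_zero] at r10
  rw [J ![2, 2, 3, 0, 1, 0, 0] ![2, 2, 3, 1, 0, 0, 0] (by decide) (by decide) (by decide) (by decide)] at r10
  have r11 := rel7 hv 2 3 1 1 1 1 0 (by norm_num) (by norm_num)
  simp only [Nat.reduceSub, if_false, if_true, OfNat.ofNat_ne_zero, one_ne_zero] at r11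
  rw [J ![2, 3, 0, 1, 1, 1, 0] ![2, 3, 1, 1, 1, 0, 0] (by decide) (by decide) (by decide) (by decide),
    J ![2, 3, 1, 0, 1, 1, 0] ![2, 3, 1, 1, 1, 0, 0] (by decide) (by decide) (by decide) (by decide),
    J ![2, 3, 1, 1, 0, 1, 0] ![2, 3, 1, 1, 1, 0, 0] (by decide) (by decide) (by decide) (by decide)] at r11
  have r12 := rel7 hv 2 3 2 1 1 0 0 (by norm_num) (by norm_num)
  simp only [Nat.reduceSub, if_false, if_true, OfNat.ofNat_ne_zero, one_ne_zero] at r12
  rw [J ![2, 3, 2, 0, 1, 0, 0] ![2, 3, 2, 1, 0, 0, 0] (by decide) (by decide) (by decide) (by decide)] at r12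
  have r13 := rel7 hv 2 3 3 1 0 0 0 (by norm_num) (by norm_num)
  simp only [Nat.reduceSub, if_false, if_true, OfNat.ofNat_ne_zero, one_ne_zero] at r13
  have r14 := rel7 hv 3 1 1 1 1 1 1 (by norm_num) (by norm_num)
  simp only [Nat.reduceSub, if_false, if_true, OfNat.ofNat_ne_zero, one_ne_zero] at r14
  rw [J ![3, 0, 1, 1, 1, 1, 1] ![3, 1, 1, 1, 1, 1, 0] (by decide) (by decide) (by decide) (by decide),
    J ![3, 1, 0, 1, 1, 1, 1] ![3, 1, 1, 1, 1, 1, 0] (by decide) (by decide) (by decide) (by decide),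
    J ![3, 1, 1, 0, 1, 1, 1] ![3, 1, 1, 1, 1, 1, 0] (by decide) (by decide) (by decide) (by decide),
    J ![3, 1, 1, 1, 0, 1, 1] ![3, 1, 1, 1, 1, 1, 0] (by decide) (by decide) (by decide) (by decide),
    J ![3, 1, 1, 1, 1, 0, 1] ![3, 1, 1, 1, 1, 1, 0] (by decide) (by decide) (by decide) (by decide)] at r14
  have r15 := rel7 hv 3 1 2 1 1 1 0 (by norm_num) (by norm_num)
  simp only [Nat.reduceSub, if_false, if_true, OfNat.ofNat_ne_zero, one_ne_zero] at r15
  rw [J ![3, 0, 2, 1, 1, 1, 0] ![3, 1, 2, 1, 1, 0, 0] (by decide) (by decide) (by decide) (by decide),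
    J ![3, 1, 2, 0, 1, 1, 0] ![3, 1, 2, 1, 1, 0, 0] (by decide) (by decide) (by decide) (by decide),
    J ![3, 1, 2, 1, 0, 1, 0] ![3, 1, 2, 1, 1, 0, 0] (by decide) (by decide) (by decide) (by decide)] at r15
  have r16 := rel7 hv 3 1 3 1 1 0 0 (by norm_num) (by norm_num)
  simp only [Nat.reduceSub, if_false, if_true, OfNat.ofNat_ne_zero, one_ne_zero] at r16
  rw [J ![3, 0, 3, 1, 1, 0, 0] ![3, 1, 3, 1, 0, 0, 0] (by decide) (by decide) (by decide) (by decide),
    J ![3, 1, 3, 0, 1, 0, 0] ![3, 1, 3, 1, 0, 0, 0] (by decide) (by decide) (by decide) (by decide)] at r16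
  have r17 := rel7 hv 3 2 1 1 1 1 0 (by norm_num) (by norm_num)
  simp only [Nat.reduceSub, if_false, if_true, OfNat.ofNat_ne_zero, one_ne_zero] at r17
  rw [J ![3, 2, 0, 1, 1, 1, 0] ![3, 2, 1, 1, 1, 0, 0] (by decide) (by decide) (by decide) (by decide),
    J ![3, 2, 1, 0, 1, 1, 0] ![3, 2, 1, 1, 1, 0, 0] (by decide) (by decide) (by decide) (by decide),
    J ![3, 2, 1, 1, 0, 1, 0] ![3, 2, 1, 1, 1, 0, 0] (by decide) (by decide) (by decide) (by decide)] at r17
  have r18 := rel7 hv 3 2 2 1 1 0 0 (by norm_num) (by norm_num)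
  simp only [Nat.reduceSub, if_false, if_true, OfNat.ofNat_ne_zero, one_ne_zero] at r18
  rw [J ![3, 2, 2, 0, 1, 0, 0] ![3, 2, 2, 1, 0, 0, 0] (by decide) (by decide) (by decide) (by decide)] at r18
  have r19 := rel7 hv 3 2 3 1 0 0 0 (by norm_num) (by norm_num)
  simp only [Nat.reduceSub, if_false, if_true, OfNat.ofNat_ne_zero, one_ne_zero] at r19
  have r20 := rel7 hv 3 3 1 1 1 0 0 (by norm_num) (by norm_num)
  simp only [Nat.reduceSub, if_false, if_true, OfNat.ofNat_ne_zero, one_ne_zero] at r20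
  rw [J ![3, 3, 0, 1, 1, 0, 0] ![3, 3, 1, 1, 0, 0, 0] (by decide) (by decide) (by decide) (by decide),
    J ![3, 3, 1, 0, 1, 0, 0] ![3, 3, 1, 1, 0, 0, 0] (by decide) (by decide) (by decide) (by decide)] at r20
  have r21 := rel7 hv 3 3 2 1 0 0 0 (by norm_num) (by norm_num)
  simp only [Nat.reduceSub, if_false, if_true, OfNat.ofNat_ne_zero, one_ne_zero] at r21
  have r22 := rel7 hv 3 3 3 0 0 0 0 (by norm_num) (by norm_num)
  simp only [Nat.reduceSub, if_false, if_true, OfNat.ofNat_ne_zero, one_ne_zero] at r22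
  linear_combination (1/7) * r0 +
    (3/7) * r1 +
    (-3/7) * r2 +
    (1/7) * r3 +
    (-3/7) * r4 +
    (3/7) * r5 +
    (3/7) * r6 +
    (-3/7) * r7 +
    (3/7) * r8 +
    (-9/7) * r9 +
    (9/7) * r10 +
    (-3/7) * r11 +
    (9/7) * r12 +
    (-9/7) * r13 +
    (1/7) * r14 +
    (-3/7) * r15 +
    (3/7) * r16 +
    (-3/7) * r17 +
    (9/7) * r18 +
    (-9/7) * r19 +
    (3/7) * r20 +
    (-9/7) * r21 +
    (9/7) * r22

end Pool.Agent.W5h40.WlpP.G
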