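import Pool.Agent.W5h40.WlpP.Gen2

set_option autoImplicit false

open MvPolynomial

namespace Pool.Agent.W5h40.WlpP.G

open Pool.Agent.Helper720.Pow Pool.Agent.W5h40.Wlp
open Pool.Agent.W5h40.WlpE (VV SS sum_upd exists_perm exists_cons coe_sub_single
  coeff_toPoly_notMem)

variable {K : Type*} [Field K]

lemma triv_of_inj {n k i : ℕ} (h : InjAt K n 2 k i 1) (v : (Fin n → ℕ) → K) (hv : Ker k i v) :
    Triv k i v := by
  classical
  set f := toPoly K n 2 k i (fun w => v (⇑(w : Fin n →₀ ℕ))) with hf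
  have hc : ∀ w : Fin n →₀ ℕ, w.degree = i → fl 2 w < k → coeff w f = v (⇑w) := by
    intro w hw hfl
    exact coeff_toPoly (fun w : ↥(Bs n 2 k i) => v (⇑(w : Fin n →₀ ℕ))) ⟨w, mem_Bs.2 ⟨hw, hfl⟩⟩
  have h1 : el K n ^ 1 * f ∈ powIdeal K n 2 k := by
    rw [pow_one]
    apply mem_of_coeff (by norm_num) (el_mul_hom (toPoly_hom _))
    intro W hW hfl
    rw [coeff_el_mul]
    refine Eq.trans (Finset.sum_congr rfl fun c _ => ?_) (hv (⇑W)
      (by rw [← Finsupp.degree_eq_sum, hW]) hfl)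
    by_cases h0 : W c = 0
    · rw [if_pos h0, if_pos h0]
    · rw [if_neg h0, if_neg h0, hc, coe_sub_single]
      · have := sum_upd (⇑W) c (W c - 1)
        rw [Finsupp.degree_eq_sum, coe_sub_single]
        rw [Finsupp.degree_eq_sum] at hW
        omega
      · refine lt_of_le_of_lt ?_ hfl
        show ∑ x, (W - Finsupp.single c 1 : Fin n →₀ ℕ) x / 2 ≤ ∑ x, W x / 2
        refine Finset.sum_le_sum fun x _ => Nat.div_le_div_right ?_
        rw [Finsupp.tsub_apply]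
        exact Nat.sub_le _ _
  have h2 := h f (toPoly_hom _) h1
  rw [mem_powIdeal (by norm_num)] at h2
  intro w hs hfl
  have h3 : (⇑(Finsupp.equivFunOnFinite.symm w) : Fin n → ℕ) = w := rfl
  have h4 : fl 2 (Finsupp.equivFunOnFinite.symm w) < k := hfl
  have h5 : (Finsupp.equivFunOnFinite.symm w).degree = i := by
    rw [Finsupp.degree_eq_sum]
    exact hs
  have h6 := h2 _ h4
  rw [hc _ h5 h4] at h6
  exact h6

lemma triv7 [CharZero K] (v : (Fin 7 → ℕ) → K) (hv : Ker 4 8 v) : Triv 4 8 v := by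
  have IH : ∀ v : (Fin 5 → ℕ) → K, Ker 4 7 v → Triv 4 7 v := fun v hv =>
    triv_of_inj (inj_norm2 (n := 4) (k := 4) (by norm_num) (by norm_num)) v hv
  have hinv : ∀ u : (Fin 7 → ℕ) → K, Ker 4 8 u → ∀ (w : Fin 7 → ℕ), ∑ c, w c = 8 →
      ∑ c, w c / 2 < 4 → ∀ j t, w j = 1 → w t = 0 →
      u w = u (Function.update (Function.update w j 0) t 1) :=
    fun u hu w hs hfl j t hj ht => inv (n := 5) IH hu hs hfl hj ht
  -- the vectors without zeros
  have hA : ∀ u : (Fin 7 → ℕ) → K, Ker 4 8 u →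
      u ![2, 1, 1, 1, 1, 1, 1] + u ![1, 2, 1, 1, 1, 1, 1] + u ![1, 1, 2, 1, 1, 1, 1] = 0 :=
    fun u hu => base7 hu (hinv u hu)
  have hA0 : ∀ u : (Fin 7 → ℕ) → K, Ker 4 8 u → u ![2, 1, 1, 1, 1, 1, 1] = 0 := by
    intro u hu
    have P : ∀ (σ : Equiv.Perm (Fin 7)) (a b c a' b' c' : Fin 7 → ℕ),
        a ∘ σ = a' → b ∘ σ = b' → c ∘ σ = c' →
        a = ![2, 1, 1, 1, 1, 1, 1] → b = ![1, 2, 1, 1, 1, 1, 1] → c = ![1, 1, 2, 1, 1, 1, 1] →
        u a' + u b' + u c' = 0 := by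
      rintro σ a b c a' b' c' rfl rfl rfl rfl rfl rfl
      exact hA _ (ker_perm hu σ)
    have p0 := hA u hu
    have p1 := P (Equiv.swap 0 3) _ _ _ ![1, 1, 1, 2, 1, 1, 1] ![1, 2, 1, 1, 1, 1, 1]
      ![1, 1, 2, 1, 1, 1, 1] (by decide) (by decide) (by decide) rfl rfl rfl
    have p2 := P (Equiv.swap 1 3) _ _ _ ![2, 1, 1, 1, 1, 1, 1] ![1, 1, 1, 2, 1, 1, 1]
      ![1, 1, 2, 1, 1, 1, 1] (by decide) (by decide) (by decide) rfl rfl rfl
    have p3 := P (Equiv.swap 2 3) _ _ _ ![2, 1, 1, 1, 1, 1, 1] ![1, 2, 1, 1, 1, 1, 1]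
      ![1, 1, 1, 2, 1, 1, 1] (by decide) (by decide) (by decide) rfl rfl rfl
    have h3 : (3 : K) * u ![2, 1, 1, 1, 1, 1, 1] = 0 := by
      linear_combination p0 - 2 * p1 + p2 + p3
    exact (mul_eq_zero.1 h3).resolve_left (by norm_num)
  refine step hv (hinv v hv) ?_
  intro w hs hfl hw
  have e1 : ∑ c, w c = ∑ c : Fin 7, (1 + (w c - 1)) :=
    Finset.sum_congr rfl fun c _ => by
      have := hw c
      omega
  rw [Finset.sum_add_distrib, Finset.sum_const, Finset.card_univ, Fintype.card_fin, smul_eq_mul,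
    hs] at e1
  obtain ⟨c, _, hc⟩ : ∃ c ∈ (Finset.univ : Finset (Fin 7)), w c - 1 ≠ 0 := by
    apply Finset.exists_ne_zero_of_sum_ne_zero
    omega
  have e2 : ∀ x, x ≠ c → (w c - 1) + (w x - 1) ≤ ∑ c, (w c - 1) := by
    intro x hx
    rw [← Finset.add_sum_erase _ _ (Finset.mem_univ c)]
    exact Nat.add_le_add_left (Finset.single_le_sum (f := fun c => w c - 1)
      (fun _ _ => Nat.zero_le _) (Finset.mem_erase.2 ⟨hx, Finset.mem_univ x⟩)) _
  have e3 : w c - 1 ≤ ∑ c, (w c - 1) :=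
    Finset.single_le_sum (f := fun c => w c - 1) (fun _ _ => Nat.zero_le _) (Finset.mem_univ c)
  have e4 : w c = 2 := by omega
  have e5 : ∀ x, x ≠ c → w x = 1 := by
    intro x hx
    have := e2 x hx
    have := hw x
    omega
  have e6 : ![2, 1, 1, 1, 1, 1, 1] ∘ Equiv.swap 0 c = w := by
    have e7 : ∀ y : Fin 7, y ≠ 0 → (![2, 1, 1, 1, 1, 1, 1] : Fin 7 → ℕ) y = 1 := by decide
    funext x
    rw [Function.comp_apply]
    by_cases hx : x = c
    · rw [hx, Equiv.swap_apply_right, e4]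
      rfl
    · rw [e5 x hx, e7]
      intro h
      apply hx
      exact (Equiv.swap 0 c).injective (h.trans (Equiv.swap_apply_right 0 c).symm)
  have e8 : v (![2, 1, 1, 1, 1, 1, 1] ∘ Equiv.swap 0 c) = 0 :=
    hA0 _ (ker_perm hv (Equiv.swap 0 c))
  rwa [e6] at e8

theorem inj_of_triv {n k i : ℕ} (h : ∀ v : (Fin n → ℕ) → K, Ker k i v → Triv k i v) :
    InjAt K n 2 k i 1 := by
  intro f hf hJ
  rw [pow_one, mem_powIdeal (by norm_num)] at hJ
  set v : (Fin n → ℕ) → K := fun w => coeff (Finsupp.equivFunOnFinite.symm w) f with hv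
  have hker : Ker k i v := by
    intro w hs hfl
    have h1 := hJ (Finsupp.equivFunOnFinite.symm w) hfl
    rw [coeff_el_mul] at h1
    refine Eq.trans (Finset.sum_congr rfl fun c _ => ?_) h1
    have h2 : (Finsupp.equivFunOnFinite.symm w : Fin n →₀ ℕ) c = w c := rfl
    rw [h2]
    by_cases hc : w c = 0
    · rw [if_pos hc, if_pos hc]
    · rw [if_neg hc, if_neg hc, hv]
      simp only
      congr 1
      apply DFunLike.coe_injective
      rw [coe_sub_single]
      rfl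
  have h1 := h v hker
  apply mem_of_coeff (by norm_num) hf
  intro w hw hfl
  have h2 := h1 (⇑w) (by rw [← Finsupp.degree_eq_sum, hw]) hfl
  rw [hv] at h2
  simp only at h2
  have h3 : Finsupp.equivFunOnFinite.symm (⇑w) = w := Finsupp.equivFunOnFinite_symm_coe w
  rwa [h3] at h2

/-- `(n, d, k) = (7, 2, 4)` -/
theorem inj7 [CharZero K] : InjAt K 7 2 4 8 1 := inj_of_triv triv7

end Pool.Agent.W5h40.WlpP.G
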