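import Pool.Agent.W5h40.WlpP.Two2

set_option autoImplicit false

open MvPolynomial

namespace Pool.Agent.W5h40.WlpP

open Pool.Agent.Helper720.Pow Pool.Agent.W5h40.Wlp

variable {K : Type*} [Field K]

lemma aeval_sign {n : ℕ} {R : Type*} [CommRing R] [Algebra K R] {G : MvPolynomial (Fin n) K}
    (hG : ∀ m, coeff m G ≠ 0 → ∀ c, Even (m c)) {s : Fin n → R} (hs : ∀ c, s c ^ 2 = 1)
    (y : Fin n → R) : aeval (fun c => s c * y c) G = aeval y G := by
  rw [aeval_def, aeval_def, eval₂_eq', eval₂_eq']
  refine Finset.sum_congr rfl fun m hm => ?_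
  congr 1
  refine Finset.prod_congr rfl fun c _ => ?_
  obtain ⟨r, hr⟩ := hG m (mem_support_iff.1 hm) c
  rw [mul_pow, hr, ← two_mul, pow_mul (s c), hs, one_pow, one_mul]

lemma eval_finSucc {n : ℕ} (ρ : MvPolynomial (Fin n) K) (G : MvPolynomial (Fin (n + 1)) K) :
    Polynomial.eval ρ (finSuccEquiv K n G) =
      aeval (Fin.cons ρ X : Fin (n + 1) → MvPolynomial (Fin n) K) G := by
  induction G using MvPolynomial.induction_on with
  | C a =>
    rw [aeval_C]
    simp [finSuccEquiv_apply]
  | add p q hp hq => rw [map_add, Polynomial.eval_add, hp, hq, map_add]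
  | mul_X p j hp =>
    rw [map_mul, Polynomial.eval_mul, hp, map_mul, aeval_X]
    congr 1
    refine Fin.cases ?_ (fun j => ?_) j
    · rw [finSuccEquiv_X_zero, Polynomial.eval_X, Fin.cons_zero]
    · rw [finSuccEquiv_X_succ, Polynomial.eval_C, Fin.cons_succ]

/-- `d = 2`: the multiplication to degree `2 k` is injective if `2 k < 2 ^ (n - 1)` -/
theorem inj_norm2 [CharZero K] {n k : ℕ} (hk : 1 ≤ k) (h : 2 * k < 2 ^ n) :
    InjAt K (n + 1) 2 k (2 * k - 1) 1 := by
  intro f hf hJ
  rw [pow_one, mem_powIdeal (by norm_num)] at hJ
  have hG : (el K (n + 1) * f).IsHomogeneous (2 * k) := by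
    have := (el_hom (K := K) (n := n + 1)).mul hf
    rwa [show 1 + (2 * k - 1) = 2 * k by omega] at this
  have heven : ∀ m, coeff m (el K (n + 1) * f) ≠ 0 → ∀ c, Even (m c) := by
    intro m hm c
    have h1 := degree_of_coeff hG hm
    have h2 : k ≤ fl 2 m := by
      by_contra hlt
      exact hm (hJ m (by omega))
    have h3 : fl 2 m = ∑ c, m c / 2 := rfl
    have h4 : m.degree = ∑ c, m c := Finsupp.degree_eq_sum m
    have h5 : ∑ c, 2 * (m c / 2) = 2 * fl 2 m := by rw [h3, Finset.mul_sum]
    have h6 : ∑ c, m c = ∑ c, (2 * (m c / 2) + m c % 2) :=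
      Finset.sum_congr rfl fun c _ => (Nat.div_add_mod _ _).symm
    rw [Finset.sum_add_distrib, h5] at h6
    have h7 : m c % 2 ≤ ∑ c, m c % 2 :=
      Finset.single_le_sum (f := fun c => m c % 2) (fun _ _ => Nat.zero_le _) (Finset.mem_univ c)
    rw [Nat.even_iff]
    omega
  have hG0 : el K (n + 1) * f = 0 := by
    have h1 : finSuccEquiv K n (el K (n + 1) * f) = 0 := by
      refine Polynomial.eq_zero_of_natDegree_lt_card_of_eval_eq_zero (ι := Fin n → Bool)
        (f := fun ε => -∑ c, (if ε c then (1 : MvPolynomial (Fin n) K) else -1) * X c) _ ?_ ?_ ?_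
      · intro ε ε' hεε
        have h2 := neg_injective hεε
        funext c
        have h3 := congrArg (coeff (Finsupp.single c 1)) h2
        have h4 : ∀ ε : Fin n → Bool, coeff (Finsupp.single c 1)
            (∑ c, (if ε c then (1 : MvPolynomial (Fin n) K) else -1) * X c) =
            (if ε c then 1 else -1) := by
          intro ε
          rw [coeff_sum, Finset.sum_eq_single c]
          · split_ifs
            · rw [one_mul, coeff_X, if_pos rfl]
            · rw [neg_one_mul, coeff_neg, coeff_X, if_pos rfl]
          · intro b _ hb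
            have h5 : coeff (Finsupp.single c 1) (X b : MvPolynomial (Fin n) K) = 0 := by
              rw [coeff_X, if_neg]
              intro h6
              exact hb (Finsupp.single_left_injective one_ne_zero h6)
            split_ifs
            · rw [one_mul, h5]
            · rw [neg_one_mul, coeff_neg, h5, neg_zero]
          · intro hc
            exact absurd (Finset.mem_univ c) hc
        rw [h4, h4] at h3
        have h5 : (1 : K) ≠ -1 := by
          intro h6
          have h7 : (2 : K) = 0 := by linear_combination h6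
          exact two_ne_zero h7
        cases h8 : ε c <;> cases h9 : ε' c <;> rw [h8, h9] at h3 <;> simp only [if_true,
          Bool.false_eq_true, if_false] at h3
        · exact absurd h3.symm h5
        · exact absurd h3 h5
      · intro ε
        show Polynomial.eval (-∑ c, (if ε c then (1 : MvPolynomial (Fin n) K) else -1) * X c) _ = 0
        rw [eval_finSucc]
        set ρ : MvPolynomial (Fin n) K :=
          -∑ c, (if ε c then (1 : MvPolynomial (Fin n) K) else -1) * X c with hρ
        rw [← aeval_sign heven (s := Fin.cons 1 fun c => if ε c then 1 else -1) (by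
          intro c
          refine Fin.cases ?_ (fun c => ?_) c
          · rw [Fin.cons_zero, one_pow]
          · rw [Fin.cons_succ]
            split_ifs
            · rw [one_pow]
            · rw [neg_one_sq])]
        rw [map_mul]
        have h2 : aeval (fun c => (Fin.cons 1 fun c => if ε c then 1 else -1 :
            Fin (n + 1) → MvPolynomial (Fin n) K) c *
            (Fin.cons ρ X : Fin (n + 1) → MvPolynomial (Fin n) K) c) (el K (n + 1)) = 0 := by
          unfold el
          rw [map_sum, Fin.sum_univ_succ]
          simp only [aeval_X, Fin.cons_zero, Fin.cons_succ, one_mul]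
          rw [hρ, neg_add_cancel]
        rw [h2, zero_mul]
      · rw [Fintype.card_fun, Fintype.card_bool, Fintype.card_fin, natDegree_finSuccEquiv]
        exact lt_of_le_of_lt ((degreeOf_le_totalDegree _ _).trans hG.totalDegree_le) h
    exact (map_eq_zero_iff _ (finSuccEquiv K n).injective).1 h1
  have hel : el K (n + 1) ≠ 0 := by
    intro h0
    have h1 := congrArg (pderiv 0) h0
    rw [pderiv_el, map_zero] at h1
    exact one_ne_zero h1
  rcases mul_eq_zero.1 hG0 with h1 | h1
  · exact absurd h1 hel
  · rw [h1]
    exact zero_mem _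

end Pool.Agent.W5h40.WlpP
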