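import Pool.Agent.W5h40.WlpP.Two

set_option autoImplicit false

open MvPolynomial

namespace Pool.Agent.W5h40.WlpP

open Pool.Agent.Helper720.Pow Pool.Agent.W5h40.Wlp
open Pool.Agent.W5h40.WlpE (VV SS sum_upd exists_perm exists_cons coe_sub_single)

variable {K : Type*} [Field K]

/-- small degrees -/
lemma small {n i : ℕ} (hi : i ≤ 4) {v : (Fin (n + 1) → ℕ) → K} (hv : Ker i v) : Triv i v := by
  have main : ∀ (μ : ℕ) (w : Fin (n + 1) → ℕ), i - w 0 = μ → ∑ c, w c = i → v w = 0 := by
    intro μ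
    induction μ using Nat.strong_induction_on with
    | _ μ ih =>
      intro w hμ hs
      set W : Fin (n + 1) → ℕ := Function.update w 0 (w 0 + 1) with hW
      have sW := sum_upd w 0 (w 0 + 1)
      rw [← hW] at sW
      have hWc : ∀ c, c ≠ 0 → W c = w c := fun c hc => by rw [hW, Function.update_of_ne hc]
      have hW0 : W 0 = w 0 + 1 := by rw [hW, Function.update_self]
      have hWs : ∑ c, W c = i + 1 := by omega
      have hfl : ∑ c, W c / 2 < 3 := by
        have h1 : ∑ c, 2 * (W c / 2) ≤ ∑ c, W c := Finset.sum_le_sum fun c _ => by omega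
        rw [← Finset.mul_sum] at h1
        omega
      have h1 := hv W hWs hfl
      rw [← Finset.add_sum_erase _ _ (Finset.mem_univ (0 : Fin (n + 1))), if_neg (by omega), hW0,
        Nat.add_sub_cancel, hW, Function.update_idem, Function.update_eq_self, ← hW] at h1
      rw [Finset.sum_eq_zero, add_zero] at h1
      · exact h1
      · intro c hc
        have hc0 := Finset.ne_of_mem_erase hc
        rw [hWc c hc0]
        by_cases hz : w c = 0
        · rw [if_pos hz]
        rw [if_neg hz]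
        have s1 := sum_upd W c (w c - 1)
        rw [hWc c hc0] at s1
        have h2 : Function.update W c (w c - 1) 0 = w 0 + 1 := by
          rw [Function.update_of_ne hc0.symm, hW0]
        have h3 : w 0 + w c ≤ ∑ c, w c := by
          rw [← Finset.add_sum_erase _ _ (Finset.mem_univ (0 : Fin (n + 1)))]
          exact Nat.add_le_add_left (Finset.single_le_sum (fun _ _ => Nat.zero_le _) hc) _
        exact ih (i - Function.update W c (w c - 1) 0) (by omega) _ rfl (by omega)
  intro w hs _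
  exact main _ w rfl hs

/-- the relations, five variables -/
lemma rel5 {v : (Fin 5 → ℕ) → K} (hv : Ker 5 v) (a b c d e : ℕ) (h1 : a + b + c + d + e = 6)
    (h2 : a / 2 + b / 2 + c / 2 + d / 2 + e / 2 < 3) :
    (if a = 0 then 0 else v ![a - 1, b, c, d, e]) + (if b = 0 then 0 else v ![a, b - 1, c, d, e]) +
      (if c = 0 then 0 else v ![a, b, c - 1, d, e]) + (if d = 0 then 0 else v ![a, b, c, d - 1, e]) +
      (if e = 0 then 0 else v ![a, b, c, d, e - 1]) = 0 := by
  have h := hv ![a, b, c, d, e] (by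
    simp only [Fin.sum_univ_five]
    exact h1) (by
    simp only [Fin.sum_univ_five]
    exact h2)
  have e0 : Function.update ![a, b, c, d, e] 0 (a - 1) = ![a - 1, b, c, d, e] := by
    funext x
    fin_cases x <;> rfl
  have e1 : Function.update ![a, b, c, d, e] 1 (b - 1) = ![a, b - 1, c, d, e] := by
    funext x
    fin_cases x <;> rfl
  have e2 : Function.update ![a, b, c, d, e] 2 (c - 1) = ![a, b, c - 1, d, e] := by
    funext x
    fin_cases x <;> rfl
  have e3 : Function.update ![a, b, c, d, e] 3 (d - 1) = ![a, b, c, d - 1, e] := by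
    funext x
    fin_cases x <;> rfl
  have e4 : Function.update ![a, b, c, d, e] 4 (e - 1) = ![a, b, c, d, e - 1] := by
    funext x
    fin_cases x <;> rfl
  rw [← e0, ← e1, ← e2, ← e3, ← e4]
  rw [Fin.sum_univ_five] at h
  exact h

/-- the vector `(1, 1, 1, 1, 1)` -/
lemma ones [CharZero K] {v : (Fin 5 → ℕ) → K} (hv : Ker 5 v)
    (hinv : ∀ (w : Fin 5 → ℕ), ∑ c, w c = 5 → ∑ c, w c / 2 < 3 → ∀ j k, w j = 1 → w k = 0 →
      v w = v (Function.update (Function.update w j 0) k 1)) : v ![1, 1, 1, 1, 1] = 0 := by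
  have c1 := rel5 hv 2 1 1 1 1 (by norm_num) (by norm_num)
  have c2 := rel5 hv 1 2 1 1 1 (by norm_num) (by norm_num)
  have c3 := rel5 hv 2 2 1 1 0 (by norm_num) (by norm_num)
  have c4 := rel5 hv 3 1 1 1 0 (by norm_num) (by norm_num)
  have c5 := rel5 hv 1 3 1 1 0 (by norm_num) (by norm_num)
  have c6 := rel5 hv 3 2 1 0 0 (by norm_num) (by norm_num)
  have c7 := rel5 hv 2 3 1 0 0 (by norm_num) (by norm_num)
  have c8 := rel5 hv 3 3 0 0 0 (by norm_num) (by norm_num)
  have I : ∀ (a b c d e a' b' c' d' e' : ℕ) (j k : Fin 5), a + b + c + d + e = 5 →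
      a / 2 + b / 2 + c / 2 + d / 2 + e / 2 < 3 → ![a, b, c, d, e] j = 1 →
      ![a, b, c, d, e] k = 0 →
      Function.update (Function.update ![a, b, c, d, e] j 0) k 1 = ![a', b', c', d', e'] →
      v ![a', b', c', d', e'] = v ![a, b, c, d, e] := by
    intro a b c d e a' b' c' d' e' j k h1 h2 h3 h4 h5
    rw [hinv ![a, b, c, d, e] (by
      simp only [Fin.sum_univ_five]
      exact h1) (by
      simp only [Fin.sum_univ_five]
      exact h2) j k h3 h4, h5]
  -- positions of the ones
  have p2 := I 2 1 1 1 0 2 0 1 1 1 1 4 rfl (by decide) rfl rfl (by decide)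
  have p3 := I 2 1 1 1 0 2 1 0 1 1 2 4 rfl (by decide) rfl rfl (by decide)
  have p4 := I 2 1 1 1 0 2 1 1 0 1 3 4 rfl (by decide) rfl rfl (by decide)
  have q2 := I 1 2 1 1 0 0 2 1 1 1 0 4 rfl (by decide) rfl rfl (by decide)
  have q3 := I 1 2 1 1 0 1 2 0 1 1 2 4 rfl (by decide) rfl rfl (by decide)
  have q4 := I 1 2 1 1 0 1 2 1 0 1 3 4 rfl (by decide) rfl rfl (by decide)
  have s2 := I 2 2 1 0 0 2 2 0 1 0 2 3 rfl (by decide) rfl rfl (by decide)
  have r2 := I 3 1 1 0 0 3 0 1 1 0 1 3 rfl (by decide) rfl rfl (by decide)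
  have r3 := I 3 1 1 0 0 3 1 0 1 0 2 3 rfl (by decide) rfl rfl (by decide)
  have t2 := I 1 3 1 0 0 0 3 1 1 0 0 3 rfl (by decide) rfl rfl (by decide)
  have t3 := I 1 3 1 0 0 1 3 0 1 0 2 3 rfl (by decide) rfl rfl (by decide)
  simp only [Nat.reduceSub, if_false, if_true, OfNat.ofNat_ne_zero,
    one_ne_zero] at c1 c2 c3 c4 c5 c6 c7 c8
  rw [p2, p3, p4] at c1
  rw [q2, q3, q4] at c2
  rw [s2] at c3
  rw [r2, r3] at c4
  rw [t2, t3] at c5
  have h : (2 / 3 : K) * v ![1, 1, 1, 1, 1] = 0 := by
    linear_combination c6 + c7 - c8 + (1 / 3) * (c1 + c2) - c3 - (1 / 3) * (c4 + c5)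
  exact (mul_eq_zero.1 h).resolve_left (by norm_num)

/-- no nonzero element of degree `h + 3` in `2 h + 1` variables is killed by the sum of the
variables modulo `(x_1 ^ 2, ...) ^ 3` -/
theorem triv_of_ker [CharZero K] : ∀ (h N : ℕ), N = 2 * h + 1 → ∀ v : (Fin N → ℕ) → K,
    Ker (h + 3) v → Triv (h + 3) v := by
  intro h
  induction h with
  | zero =>
    intro N hN v hv
    subst hN
    exact small (by norm_num) hv
  | succ h ih =>
    intro N hN v hv
    rcases Nat.eq_zero_or_pos h with rfl | hpos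
    · subst hN
      exact small (by norm_num) hv
    obtain ⟨n, rfl⟩ : ∃ n, N = n + 2 := ⟨2 * h + 1, by omega⟩
    have hn : n = 2 * h + 1 := by omega
    have e : h + 1 + 3 = (h + 3) + 1 := by omega
    rw [e] at hv ⊢
    have hinv : ∀ (w : Fin (n + 2) → ℕ), ∑ c, w c = h + 3 + 1 → ∑ c, w c / 2 < 3 →
        ∀ j k, w j = 1 → w k = 0 → v w = v (Function.update (Function.update w j 0) k 1) :=
      fun w hs hfl j k hj hk => inv (ih n hn) hv hs hfl hj hk
    refine step hv hinv ?_
    intro w hs hfl hw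
    have h1 : ∑ c : Fin (n + 2), 1 ≤ ∑ c, w c :=
      Finset.sum_le_sum fun c _ => Nat.one_le_iff_ne_zero.2 (hw c)
    rw [Finset.sum_const, Finset.card_univ, Fintype.card_fin, smul_eq_mul, mul_one] at h1
    have h2 : h = 1 := by omega
    subst h2
    have h3 : n = 3 := by omega
    subst h3
    have h4 : ∀ c, w c = 1 := by
      by_contra hc
      push Not at hc
      obtain ⟨c, hc⟩ := hc
      have h5 : 1 < w c := by
        have := hw c
        omega
      have h6 : ∑ c : Fin 5, 1 < ∑ c, w c :=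
        Finset.sum_lt_sum (fun c _ => Nat.one_le_iff_ne_zero.2 (hw c)) ⟨c, Finset.mem_univ c, h5⟩
      rw [Finset.sum_const, Finset.card_univ, Fintype.card_fin, smul_eq_mul, mul_one] at h6
      omega
    have h5 : w = ![1, 1, 1, 1, 1] := by
      funext c
      rw [h4 c]
      fin_cases c <;> rfl
    rw [h5]
    exact ones hv hinv

/-- the injectivity for `d = 2`, `k = 3` -/
theorem inj_two3 [CharZero K] {n : ℕ} (h : ℕ) (hn : n = 2 * h + 1) :
    InjAt K n 2 3 (h + 3) 1 := by
  intro f hf hJ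
  rw [pow_one, mem_powIdeal (by norm_num)] at hJ
  set v : (Fin n → ℕ) → K := fun w => coeff (Finsupp.equivFunOnFinite.symm w) f with hv
  have hker : Ker (h + 3) v := by
    intro w hs hfl
    have h1 := hJ (Finsupp.equivFunOnFinite.symm w) hfl
    rw [coeff_el_mul] at h1
    refine Eq.trans (Finset.sum_congr rfl fun c _ => ?_) h1
    have h2 : (Finsupp.equivFunOnFinite.symm w : Fin n →₀ ℕ) c = w c := rfl
    rw [h2]
    by_cases hc : w c = 0
    · rw [if_pos hc, if_pos hc]
    · rw [if_neg hc, if_neg hc, hv]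
      simp only
      congr 1
      apply DFunLike.coe_injective
      rw [coe_sub_single]
      rfl
  have h1 := triv_of_ker h n hn v hker
  apply mem_of_coeff (by norm_num) hf
  intro w hw hfl
  have h2 := h1 (⇑w) (by rw [← Finsupp.degree_eq_sum, hw]) hfl
  rw [hv] at h2
  simp only at h2
  have h3 : Finsupp.equivFunOnFinite.symm (⇑w) = w := Finsupp.equivFunOnFinite_symm_coe w
  rwa [h3] at h2

end Pool.Agent.W5h40.WlpP
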